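import Pool.Agent.H50.Dope.Main

/-!
# Dope matrices: triples `(0, 1, z)` with a power of `z`, `1 - z` or `z / (z - 1)` of low degree
-/

set_option autoImplicit false

namespace Pool.Agent.Results.MP_6d09f2_co.RootsOfQuadratics

open Polynomial Pool.Agent.H50.Dope

/-- Let `(0, 1, z)` and `(0, 1, z')` be equivalent. The powers of `z`, `1 - z`, `z / (z - 1)` satisfy
the same equations `binSum w E = 0` and the same equations `h = 0`, `Low h`, as those of `z'`. If one
of the three numbers is a root of unity, or has minimal polynomial `h (X ^ k)` with `Low h`, then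
`z'` is algebraic and conjugate to `z`. -/
theorem result : ∀ z z' : ℂ, z ≠ 0 → z ≠ 1 → z' ≠ 0 → z' ≠ 1 →
    Equivalent ![0, 1, z] ![0, 1, z'] →
    (∀ (i : Fin 3) (k : ℤ) (w : ℕ) (E : Finset ℕ), k ≠ 0 → 0 ∉ E →
      (binSum w E (tau z i ^ k) = 0 ↔ binSum w E (tau z' i ^ k) = 0)) ∧
    (∀ (i : Fin 3) (k : ℤ) (h : ℚ[X]), k ≠ 0 → Low h →
      (aeval (tau z i ^ k) h = 0 ↔ aeval (tau z' i ^ k) h = 0)) ∧
    ((∃ i, Good (tau z i)) → IsAlgebraic ℚ z' ∧ minpoly ℚ z' = minpoly ℚ z) :=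
  main

end Pool.Agent.Results.MP_6d09f2_co.RootsOfQuadratics
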